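import Mathlib
import Pool.Agent.Helper450.ET.Core
import Pool.Agent.Helper450.ET.Fin

set_option autoImplicit false

open Pool.Agent.Helper450.ET

/-- There is no hardest ETOL language: no language over a finite alphabet is hardest for the class
of all ETOL languages. -/
theorem Pool.Agent.Results.MP_d9d02e_lc.NoHardest.result :
    ¬ ∃ (α₀ : Type) (_ : Finite α₀) (L₀ : Set (List α₀)), IsHardest L₀ :=
  no_hardest
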